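import Pool.Agent.H569R2.Tri.Iface

/-!
# One-hot distances for `p = ∞`
-/

namespace Pool.Agent.H569R2.Tri

open Pool.Agent.NPC
open scoped ENNReal

theorem hot_foldr (l : List ℝ) (x : ℝ) (hx : 0 ≤ x) : l.foldr max 0 ≤ x ↔ ∀ a ∈ l, a ≤ x := by
  induction l with
  | nil => simp [hx]
  | cons a l ih =>
    rw [List.foldr_cons, max_le_iff, ih]
    simp

theorem hot_zip {α β γ δ : Type*} (f : β → γ → δ) (l : List α) (g : α → List β) (h : α → List γ)
    (hl : ∀ b, (g b).length = (h b).length) :
    List.zipWith f (l.flatMap g) (l.flatMap h) = l.flatMap (fun b => List.zipWith f (g b) (h b)) := by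
  induction l with
  | nil => simp
  | cons a l ih =>
    rw [List.flatMap_cons, List.flatMap_cons, List.flatMap_cons, List.zipWith_append (hl a), ih]

theorem hot_zip2 {α β γ δ : Type*} (f : β → γ → δ) (l : List α) (g : α → β) (h : α → γ) :
    List.zipWith f (l.map g) (l.map h) = l.map (fun z => f (g z) (h z)) := by
  induction l with
  | nil => simp
  | cons a l ih => simp [ih]

/-- entry of a point -/
def hotE (T : List (ℕ × ℕ × ℕ)) (v b z : ℕ) : ℚ :=
  if z = fb T b v then (if fb T b v = v then ht b else - ht b) else 0

theorem ht_pos (b : ℕ) : 0 < ht b := by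
  unfold ht
  split_ifs
  · norm_num
  · positivity

theorem hot_getD (T : List (ℕ × ℕ × ℕ)) (u : ℕ) (hu : u < nv T) : (redI T).getD u [] = ptI T u := by
  unfold redI
  simp [List.getD_eq_getElem?_getD, hu]

theorem hot_mem (T : List (ℕ × ℕ × ℕ)) (u v : ℕ) (a : ℝ) :
    a ∈ List.zipWith (fun a b : ℚ => |(a : ℝ) - b|) (ptI T u) (ptI T v) ↔
      ∃ b < 9, ∃ z < nv T, a = |(hotE T u b z : ℝ) - (hotE T v b z : ℝ)| := by
  have h1 : ∀ w, ptI T w = (List.range 9).flatMap (fun b => (List.range (nv T)).map (hotE T w b)) :=
    fun w => rfl
  rw [h1, h1, hot_zip _ _ _ _ (fun b => by simp), List.mem_flatMap]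
  constructor
  · rintro ⟨b, hb, h⟩
    rw [hot_zip2, List.mem_map] at h
    obtain ⟨z, hz, rfl⟩ := h
    exact ⟨b, List.mem_range.1 hb, z, List.mem_range.1 hz, rfl⟩
  · rintro ⟨b, hb, z, hz, rfl⟩
    refine ⟨b, List.mem_range.2 hb, ?_⟩
    rw [hot_zip2, List.mem_map]
    exact ⟨z, List.mem_range.2 hz, rfl⟩

/-- TASK I. -/
theorem stmtI : StmtI := by
  intro T hfb
  refine ⟨?_, 9 * nv T, by unfold nv; omega, ?_⟩
  · intro u v hu hv x hx
    rw [hot_getD T u hu, hot_getD T v hv]
    unfold lpDist
    rw [if_pos rfl, hot_foldr _ _ hx]
    constructor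
    · intro h b hb
      have hp := ht_pos b
      have hpR : (0 : ℝ) < ((ht b : ℚ) : ℝ) := by exact_mod_cast hp
      unfold bl
      split_ifs with h1 h2
      · simpa using hx
      · have h3 := h _ ((hot_mem T u v _).2 ⟨b, hb, fb T b v, hfb b v hv, rfl⟩)
        refine le_trans ?_ h3
        unfold hotE
        rw [if_pos h1.symm, if_pos rfl]
        rcases Classical.em (fb T b u = u) with h4 | h4 <;>
          rcases Classical.em (fb T b v = v) with h5 | h5
        · exact absurd ⟨fun _ => h5, fun _ => h4⟩ h2
        · rw [if_pos h4, if_neg h5]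
          refine le_trans (le_of_eq ?_) (le_abs_self _)
          push_cast
          ring
        · rw [if_neg h4, if_pos h5]
          refine le_trans (le_of_eq ?_) (neg_le_abs _)
          push_cast
          ring
        · exact absurd ⟨fun h => absurd h h4, fun h => absurd h h5⟩ h2
      · have h3 := h _ ((hot_mem T u v _).2 ⟨b, hb, fb T b v, hfb b v hv, rfl⟩)
        refine le_trans ?_ h3
        unfold hotE
        rw [if_neg (fun h => h1 h.symm), if_pos rfl]
        rcases Classical.em (fb T b v = v) with h5 | h5
        · rw [if_pos h5]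
          refine le_trans (le_of_eq ?_) (neg_le_abs _)
          push_cast
          ring
        · rw [if_neg h5]
          refine le_trans (le_of_eq ?_) (le_abs_self _)
          push_cast
          ring
    · intro h a ha
      obtain ⟨b, hb, z, hz, rfl⟩ := (hot_mem T u v a).1 ha
      have hp := ht_pos b
      have hpR : (0 : ℝ) < ((ht b : ℚ) : ℝ) := by exact_mod_cast hp
      have h0 := h b hb
      unfold bl at h0
      unfold hotE
      by_cases h1 : fb T b u = fb T b v
      · rw [if_pos h1] at h0
        by_cases hz1 : z = fb T b u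
        · rw [if_pos hz1, if_pos (hz1.trans h1)]
          by_cases h4 : fb T b u = u
          · by_cases h5 : fb T b v = v
            · rw [if_pos h4, if_pos h5]
              simpa using hx
            · rw [if_neg (fun h => h5 (h.1 h4))] at h0
              rw [if_pos h4, if_neg h5]
              rw [abs_le]
              push_cast at h0 ⊢
              constructor <;> linarith
          · by_cases h5 : fb T b v = v
            · rw [if_neg (fun h => h4 (h.2 h5))] at h0
              rw [if_neg h4, if_pos h5]
              rw [abs_le]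
              push_cast at h0 ⊢
              constructor <;> linarith
            · rw [if_neg h4, if_neg h5]
              simpa using hx
        · rw [if_neg hz1, if_neg (fun h => hz1 (h.trans h1.symm))]
          simpa using hx
      · rw [if_neg h1] at h0
        push_cast at h0
        by_cases hz1 : z = fb T b u
        · rw [if_pos hz1, if_neg (fun h => h1 (hz1.symm.trans h)), abs_le]
          split_ifs <;> push_cast <;> constructor <;> linarith
        · rw [if_neg hz1, abs_le]
          split_ifs <;> push_cast <;> constructor <;> linarith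
  · intro x hx
    unfold redI at hx
    obtain ⟨v, hv, rfl⟩ := List.mem_map.1 hx
    unfold ptI
    simp [List.length_flatMap]
    try ring

end Pool.Agent.H569R2.Tri
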